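import Pool.Agent.H33.HC.TA

/-!
# IDZ: smooth sums over the ideals with a complex power (MP_347b49_nt)
-/

set_option autoImplicit false

open NumberField Complex Filter Topology MeasureTheory
open scoped ContDiff nonZeroDivisors

namespace Pool.Agent.H45.HC

open Pool.Agent.H28.RC Pool.Agent.H37.CV Pool.Agent.H33.HH Pool.Agent.H33.HC

noncomputable section

/-! ### The cut off function -/

/-- one for `x ≤ 1/2`, zero for `1 ≤ x` -/
def ct (x : ℝ) : ℝ := Real.smoothTransition (2 - 2 * x)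

theorem ct_one {x : ℝ} (h : x ≤ 1 / 2) : ct x = 1 :=
  Real.smoothTransition.one_of_one_le (by linarith)

theorem ct_zero {x : ℝ} (h : 1 ≤ x) : ct x = 0 :=
  Real.smoothTransition.zero_of_nonpos (by linarith)

theorem ct_abs (x : ℝ) : |ct x| ≤ 1 := by
  have h1 : 0 ≤ ct x := Real.smoothTransition.nonneg _
  have h2 : ct x ≤ 1 := Real.smoothTransition.le_one _
  rw [abs_of_nonneg h1]; exact h2

theorem ct_smooth : ContDiff ℝ ∞ ct := by
  unfold ct
  exact Real.smoothTransition.contDiff.comp (by fun_prop)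

/-- the dyadic piece, supported in `[1/4, 1]` -/
def pc (x : ℝ) : ℝ := ct x - ct (2 * x)

theorem pc_low {x : ℝ} (h : x ≤ 1 / 4) : pc x = 0 := by
  unfold pc; rw [ct_one (by linarith), ct_one (by linarith)]; ring

theorem pc_high {x : ℝ} (h : 1 ≤ x) : pc x = 0 := by
  unfold pc; rw [ct_zero h, ct_zero (by linarith)]; ring

theorem pc_smooth : ContDiff ℝ ∞ pc :=
  ct_smooth.sub (ct_smooth.comp (by fun_prop))

/-- the function `x^(-w)` times the dyadic piece -/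
def FF (p : ℂ × ℝ) : ℂ := cexp (-p.1 * (Real.log p.2 : ℂ)) * (pc p.2 : ℂ)

theorem FF_smooth : ContDiff ℝ ∞ FF := by
  rw [contDiff_iff_contDiffAt]
  rintro ⟨w, x⟩
  by_cases hx : x < 1 / 4
  · have h : FF =ᶠ[𝓝 (w, x)] fun _ => 0 := by
      have ho : {p : ℂ × ℝ | p.2 < 1 / 4} ∈ 𝓝 (w, x) :=
        (isOpen_lt continuous_snd continuous_const).mem_nhds hx
      filter_upwards [ho] with p hp
      have hp' : p.2 < 1 / 4 := hp
      unfold FF
      rw [pc_low hp'.le]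
      simp
    exact contDiffAt_const.congr_of_eventuallyEq h
  · have hx0 : x ≠ 0 := by push Not at hx; intro h; rw [h] at hx; linarith
    unfold FF
    have h1 : ContDiffAt ℝ ∞ (fun p : ℂ × ℝ => (Real.log p.2 : ℂ)) (w, x) := by
      have h2 : ContDiffAt ℝ ∞ (fun p : ℂ × ℝ => Real.log p.2) (w, x) :=
        contDiffAt_snd.log hx0
      exact Complex.ofRealCLM.contDiff.contDiffAt.comp _ h2
    have h3 : ContDiffAt ℝ ∞ (fun p : ℂ × ℝ => (pc p.2 : ℂ)) (w, x) :=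
      (Complex.ofRealCLM.contDiff.comp (pc_smooth.comp contDiff_snd)).contDiffAt
    exact ((contDiffAt_fst.neg.mul h1).cexp).mul h3

/-- the derivative in the second variable -/
def D2 (F : ℂ × ℝ → ℂ) (p : ℂ × ℝ) : ℂ := fderiv ℝ F p (0, 1)

theorem D2_smooth {F : ℂ × ℝ → ℂ} (hF : ContDiff ℝ ∞ F) : ContDiff ℝ ∞ (D2 F) := by
  unfold D2
  exact (hF.fderiv_right (m := ∞) (by simp)).clm_apply contDiff_const

theorem iter_D2 (k : ℕ) : ∀ {F : ℂ × ℝ → ℂ}, ContDiff ℝ ∞ F → ∀ (w : ℂ) (x : ℝ),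
    iteratedDeriv k (fun x => F (w, x)) x = (D2^[k] F) (w, x) := by
  induction k with
  | zero => intro F _ w x; simp
  | succ k ih =>
    intro F hF w x
    rw [iteratedDeriv_succ']
    have h : deriv (fun x => F (w, x)) = fun x => D2 F (w, x) := by
      funext y
      have h1 : HasDerivAt (fun x : ℝ => ((w, x) : ℂ × ℝ)) ((0, 1) : ℂ × ℝ) y :=
        (hasDerivAt_const y w).prodMk (hasDerivAt_id y)
      have h2 : HasFDerivAt F (fderiv ℝ F (w, y)) (w, y) :=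
        (hF.differentiable (by simp) _).hasFDerivAt
      exact (h2.comp_hasDerivAt y h1).deriv
    rw [h, ih (D2_smooth hF) w x]
    rfl

theorem iter_smooth (k : ℕ) : ∀ {F : ℂ × ℝ → ℂ}, ContDiff ℝ ∞ F → ContDiff ℝ ∞ (D2^[k] F) := by
  induction k with
  | zero => intro F h; simpa using h
  | succ k ih => intro F h; exact ih (D2_smooth h)

/-- uniform bound of the derivatives -/
theorem FF_bound : ∃ A : ℝ, 0 ≤ A ∧ ∀ k ≤ 3, ∀ (w : ℂ) (x : ℝ), ‖w‖ ≤ 1 / 16 →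
    x ∈ Set.Icc (0 : ℝ) 1 → ‖iteratedDeriv k (fun x => FF (w, x)) x‖ ≤ A := by
  have h1 : ∀ k : ℕ, ∃ A : ℝ, ∀ (w : ℂ) (x : ℝ), ‖w‖ ≤ 1 / 16 →
      x ∈ Set.Icc (0 : ℝ) 1 → ‖iteratedDeriv k (fun x => FF (w, x)) x‖ ≤ A := by
    intro k
    have hK : IsCompact (Metric.closedBall (0 : ℂ) (1 / 16) ×ˢ Set.Icc (0 : ℝ) 1) :=
      (isCompact_closedBall _ _).prod isCompact_Icc
    obtain ⟨A, hA⟩ := hK.exists_bound_of_continuousOn
      (iter_smooth k FF_smooth).continuous.continuousOn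
    refine ⟨A, fun w x hw hx => ?_⟩
    rw [iter_D2 k FF_smooth]
    exact hA _ ⟨by simpa using hw, hx⟩
  choose A hA using h1
  refine ⟨∑ k ∈ Finset.range 4, |A k|, Finset.sum_nonneg fun _ _ => abs_nonneg _, ?_⟩
  intro k hk w x hw hx
  refine (hA k w x hw hx).trans ((le_abs_self _).trans ?_)
  exact Finset.single_le_sum (f := fun k => |A k|) (fun _ _ => abs_nonneg _)
    (Finset.mem_range.2 (by omega))

/-! ### The dyadic pieces -/

/-- derivatives of a product -/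
theorem iter_mul_le {f g : ℝ → ℂ} (hf : ContDiff ℝ ∞ f) (hg : ContDiff ℝ ∞ g) {a c : ℝ}
    (ha : 0 ≤ a) {x : ℝ} (h1 : ∀ k ≤ 3, ‖iteratedDeriv k f x‖ ≤ a)
    (h2 : ∀ k ≤ 3, ‖iteratedDeriv k g x‖ ≤ c) {k : ℕ} (hk : k ≤ 3) :
    ‖iteratedDeriv k (fun x => f x * g x) x‖ ≤ 8 * (a * c) := by
  have hc : 0 ≤ c := (norm_nonneg _).trans (h2 0 (by omega))
  rw [← norm_iteratedFDeriv_eq_norm_iteratedDeriv]
  refine (norm_iteratedFDeriv_mul_le (N := ∞) hf hg x (by exact_mod_cast le_top)).trans ?_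
  have h3 : ∀ i ∈ Finset.range (k + 1), ((k.choose i : ℕ) : ℝ) * ‖iteratedFDeriv ℝ i f x‖ *
      ‖iteratedFDeriv ℝ (k - i) g x‖ ≤ (k.choose i : ℝ) * (a * c) := by
    intro i hi
    have hi' : i ≤ k := Nat.lt_succ_iff.1 (Finset.mem_range.1 hi)
    rw [norm_iteratedFDeriv_eq_norm_iteratedDeriv, norm_iteratedFDeriv_eq_norm_iteratedDeriv,
      mul_assoc]
    exact mul_le_mul_of_nonneg_left (mul_le_mul (h1 i (by omega)) (h2 _ (by omega))
      (norm_nonneg _) ha) (Nat.cast_nonneg _)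
  refine (Finset.sum_le_sum h3).trans ?_
  rw [← Finset.sum_mul]
  have h4 : ∑ i ∈ Finset.range (k + 1), ((k.choose i : ℕ) : ℝ) = 2 ^ k := by
    exact_mod_cast Nat.sum_range_choose k
  rw [h4]
  have h5 : (2 : ℝ) ^ k ≤ 8 := by
    calc (2 : ℝ) ^ k ≤ 2 ^ 3 := pow_le_pow_right₀ (by norm_num) hk
      _ = 8 := by norm_num
  exact mul_le_mul_of_nonneg_right h5 (mul_nonneg ha hc)

/-- the scaled function -/
theorem scale_bound {g : ℝ → ℂ} {b M B l : ℝ} (hg : ContDiff ℝ ∞ g) (hb : 0 < b)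
    (h0 : ∀ u, b ≤ u → g u = 0) (hM : ∀ j ≤ 3, ∀ u ∈ Set.Icc 0 b, ‖iteratedDeriv j g u‖ ≤ M)
    (hB : 1 ≤ B) (hl : 0 ≤ l) (hlB : l ≤ B) {x : ℝ} (hx : 0 ≤ x) {k : ℕ} (hk : k ≤ 3) :
    ‖iteratedDeriv k (fun x => g (l * x)) x‖ ≤ B ^ 3 * M := by
  have hM0 : 0 ≤ M := (norm_nonneg _).trans (hM 0 (by omega) 0 ⟨le_rfl, hb.le⟩)
  have h1 : iteratedDeriv k (fun x => g (l * x)) x = l ^ k • iteratedDeriv k g (l * x) := by
    rw [iteratedDeriv_comp_const_smul (hg.of_le (by exact_mod_cast le_top)) l]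
  rw [h1, norm_smul, norm_pow, Real.norm_of_nonneg hl]
  have h2 : ‖iteratedDeriv k g (l * x)‖ ≤ M := by
    rcases le_or_gt (l * x) b with h | h
    · exact hM k hk _ ⟨mul_nonneg hl hx, h⟩
    · have h3 : g =ᶠ[𝓝 (l * x)] fun _ => (0 : ℂ) := by
        filter_upwards [lt_mem_nhds h] with y hy using h0 y hy.le
      rw [h3.iteratedDeriv_eq k]
      simpa [iteratedDeriv_const] using (by split_ifs <;> simp [hM0] :
        ‖(if k = 0 then (0 : ℂ) else 0)‖ ≤ M)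
  have h4 : l ^ k ≤ B ^ 3 := (pow_le_pow_left₀ hl hlB k).trans (pow_le_pow_right₀ hB hk)
  exact mul_le_mul h4 h2 (norm_nonneg _) (by positivity)

/-! ### Complex valued functions -/

section cplx

variable {K : Type} [Field K] [NumberField K]

theorem fin_nm (x : ℝ) : {I : NI K | nm I.1 < x}.Finite := by
  have h : {I : Ideal (𝓞 K) | Ideal.absNorm I ≤ ⌈x⌉₊}.Finite :=
    Ideal.finite_setOfPred_absNorm_le ⌈x⌉₊
  refine Set.Finite.of_finite_image (f := Subtype.val) (h.subset ?_) Subtype.val_injective.injOn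
  rintro _ ⟨I, hI, rfl⟩
  have h1 : nm I.1 < x := hI
  have h2 : ((Ideal.absNorm I.1 : ℕ) : ℝ) < (⌈x⌉₊ : ℝ) := lt_of_lt_of_le h1 (Nat.le_ceil x)
  exact (Nat.cast_lt.mp h2).le

theorem sumZ_summable {P X : ℝ} {f : Ideal (𝓞 K) → ℂ} (hf : ∀ I, X ≤ nm I → f I = 0) :
    Summable (fun I : NI K => open scoped Classical in if Cp P I.1 then f I.1 else 0) := by
  classical
  refine summable_of_hasFiniteSupport ((fin_nm (K := K) X).subset ?_)
  intro I hI
  by_contra h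
  apply hI
  show (if Cp P I.1 then f I.1 else 0) = 0
  rw [hf _ (not_lt.mp h)]
  simp

theorem int_Ioi {f : ℝ → ℂ} (hf : Continuous f) (h0 : ∀ u, 1 ≤ u → f u = 0) :
    IntegrableOn f (Set.Ioi 0) := by
  rw [← Set.Ioc_union_Ioi_eq_Ioi (zero_le_one (α := ℝ))]
  refine IntegrableOn.union (hf.integrableOn_Ioc) ?_
  refine (integrableOn_zero (ε' := ℂ)).congr_fun (fun u hu => ?_) measurableSet_Ioi
  exact (h0 u (le_of_lt hu)).symm

theorem cplx [IQ K] {P C1 : ℝ}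
    (h : ∀ (f : ℝ → ℝ) (M T : ℝ), ContDiff ℝ ∞ f → (∀ u, 1 ≤ u → f u = 0) →
      (∀ j ≤ 3, ∀ u ∈ Set.Icc 0 1, |iteratedDeriv j f u| ≤ M) → 1 ≤ T →
      |sumC (K := K) P (fun n => f (nm n / T)) - rk K P * T * (∫ u in Set.Ioi (0 : ℝ), f u)| ≤
        C1 * M * T ^ (1 - ((3 : ℕ) : ℝ) / 2))
    {f : ℝ → ℂ} {M T : ℝ} (hf : ContDiff ℝ ∞ f) (h0 : ∀ u, 1 ≤ u → f u = 0)
    (hM : ∀ j ≤ 3, ∀ u ∈ Set.Icc 0 1, ‖iteratedDeriv j f u‖ ≤ M) (hT : 1 ≤ T) :
    ‖sumZ (K := K) P (fun n => f (nm n / T)) -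
      ((rk K P * T : ℝ) : ℂ) * ∫ u in Set.Ioi (0 : ℝ), f u‖ ≤
      2 * (C1 * M * T ^ (1 - ((3 : ℕ) : ℝ) / 2)) := by
  classical
  have hT0 : 0 < T := by linarith
  have hint := int_Ioi hf.continuous h0
  have hsum : Summable (fun I : NI K => if Cp P I.1 then f (nm I.1 / T) else 0) :=
    sumZ_summable (X := T) (f := fun I => f (nm I / T))
      (fun I hI => h0 _ (by rwa [le_div_iff₀ hT0, one_mul]))
  have hd : ∀ (L : ℂ →L[ℝ] ℝ), ‖L‖ ≤ 1 → ∀ j ≤ 3, ∀ u ∈ Set.Icc (0 : ℝ) 1,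
      |iteratedDeriv j (fun x => L (f x)) u| ≤ M := by
    intro L hL j hj u hu
    have h1 := L.norm_iteratedFDeriv_comp_left (n := j) (N := ∞) (hf.contDiffAt (x := u))
      (by exact_mod_cast le_top)
    rw [norm_iteratedFDeriv_eq_norm_iteratedDeriv, norm_iteratedFDeriv_eq_norm_iteratedDeriv,
      Real.norm_eq_abs] at h1
    refine h1.trans ((mul_le_mul_of_nonneg_right hL (norm_nonneg _)).trans ?_)
    rw [one_mul]; exact hM j hj u hu
  have hre := h (fun x => (f x).re) M T (Complex.reCLM.contDiff.comp hf)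
    (fun u hu => by rw [h0 u hu]; rfl) (hd Complex.reCLM (by simp)) hT
  have him := h (fun x => (f x).im) M T (Complex.imCLM.contDiff.comp hf)
    (fun u hu => by rw [h0 u hu]; rfl) (hd Complex.imCLM (by simp)) hT
  have e1 : (sumZ (K := K) P (fun n => f (nm n / T))).re =
      sumC (K := K) P (fun n => (f (nm n / T)).re) := by
    unfold sumZ sumC
    rw [Complex.re_tsum hsum]
    exact tsum_congr fun I => by split_ifs <;> rfl
  have e2 : (sumZ (K := K) P (fun n => f (nm n / T))).im =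
      sumC (K := K) P (fun n => (f (nm n / T)).im) := by
    unfold sumZ sumC
    rw [Complex.im_tsum hsum]
    exact tsum_congr fun I => by split_ifs <;> rfl
  have e3 : (∫ u in Set.Ioi (0 : ℝ), f u).re = ∫ u in Set.Ioi (0 : ℝ), (f u).re :=
    (Complex.reCLM.integral_comp_comm hint).symm
  have e4 : (∫ u in Set.Ioi (0 : ℝ), f u).im = ∫ u in Set.Ioi (0 : ℝ), (f u).im :=
    (Complex.imCLM.integral_comp_comm hint).symm
  refine (Complex.norm_le_abs_re_add_abs_im _).trans ?_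
  rw [Complex.sub_re, Complex.sub_im, Complex.re_ofReal_mul, Complex.im_ofReal_mul, e1, e2, e3, e4]
  linarith

end cplx

/-! ### The decomposition -/

theorem FF_eq (w : ℂ) {x : ℝ} (hx : 0 < x) : FF (w, x) = (x : ℂ) ^ (-w) * (pc x : ℂ) := by
  unfold FF
  rw [Complex.cpow_def_of_ne_zero (by exact_mod_cast hx.ne'), ← Complex.ofReal_log hx.le]
  congr 2
  ring

/-- the scales -/
def la (B : ℝ) (j : ℕ) : ℝ := 2 * B / 2 ^ j

theorem la_pos {B : ℝ} (hB : 1 ≤ B) (j : ℕ) : 0 < la B j := by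
  unfold la; positivity

theorem la_succ (B : ℝ) (j : ℕ) : la B (j + 1) = la B j / 2 := by
  unfold la; rw [pow_succ]; field_simp

theorem la_le {B : ℝ} (hB : 1 ≤ B) (j : ℕ) : la B j ≤ 2 * B := by
  unfold la
  exact div_le_self (by linarith) (one_le_pow₀ (by norm_num))

/-- the piece -/
def hj (g : ℝ → ℂ) (w : ℂ) (B : ℝ) (j : ℕ) (x : ℝ) : ℂ := FF (w, x) * g (la B j * x)

theorem tele (B : ℝ) (hB : 1 ≤ B) (v : ℝ) (n : ℕ) :
    ∑ j ∈ Finset.range n, pc (v / la B j) = ct (v / la B 0) - ct (v / la B n) := by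
  induction n with
  | zero => simp
  | succ n ih =>
    rw [Finset.sum_range_succ, ih]
    have h1 := la_pos hB n
    have h : 2 * (v / la B n) = v / la B (n + 1) := by
      rw [la_succ]; field_simp
    unfold pc
    rw [h]; ring

theorem decomp (g : ℝ → ℂ) (w : ℂ) {B v : ℝ} (hB : 1 ≤ B) (hv : 0 < v) (n : ℕ) :
    ∑ j ∈ Finset.range n, (la B j : ℂ) ^ (-w) * hj g w B j (v / la B j) =
      (v : ℂ) ^ (-w) * g v * ((ct (v / la B 0) - ct (v / la B n) : ℝ) : ℂ) := by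
  rw [← tele B hB v n, Complex.ofReal_sum, Finset.mul_sum]
  refine Finset.sum_congr rfl fun j _ => ?_
  have h1 := la_pos hB j
  unfold hj
  rw [FF_eq w (div_pos hv h1), mul_div_cancel₀ v h1.ne']
  have h2 : (la B j : ℂ) ^ (-w) * ((v / la B j : ℝ) : ℂ) ^ (-w) = (v : ℂ) ^ (-w) := by
    rw [← Complex.mul_cpow_ofReal_nonneg h1.le (div_pos hv h1).le, ← Complex.ofReal_mul,
      mul_div_cancel₀ v h1.ne']
  rw [← h2]; ring

theorem hj_smooth {g : ℝ → ℂ} (hg : ContDiff ℝ ∞ g) (w : ℂ) (B : ℝ) (j : ℕ) :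
    ContDiff ℝ ∞ (hj g w B j) := by
  unfold hj
  exact (FF_smooth.comp (contDiff_const.prodMk contDiff_id)).mul
    (hg.comp (contDiff_const.mul contDiff_id))

theorem hj_zero (g : ℝ → ℂ) (w : ℂ) (B : ℝ) (j : ℕ) {x : ℝ} (hx : 1 ≤ x) : hj g w B j x = 0 := by
  unfold hj FF
  rw [pc_high hx]; simp

/-- size of the power -/
theorem pow_bound {w : ℂ} {l B T C₀ : ℝ} (hB : 1 ≤ B) (hT : 1 ≤ T) (hw : ‖w‖ ≤ 1 / 16)
    (hC : ‖w‖ * Real.log T ≤ C₀) (hl : 0 < l) (h1 : 1 ≤ T * l) (h2 : l ≤ 2 * B) :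
    ‖(l : ℂ) ^ (-w)‖ ≤ 2 * B * Real.exp C₀ := by
  rw [Complex.norm_cpow_eq_rpow_re_of_pos hl, Complex.neg_re, Real.rpow_def_of_pos hl]
  have hT0 : 0 < T := by linarith
  have h3 : Real.log l ≤ Real.log (2 * B) := Real.log_le_log hl h2
  have h4 : 0 ≤ Real.log T + Real.log l := by
    rw [← Real.log_mul hT0.ne' hl.ne']; exact Real.log_nonneg h1
  have h5 : 0 ≤ Real.log T := Real.log_nonneg hT
  have h6 : 0 ≤ Real.log (2 * B) := Real.log_nonneg (by linarith)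
  have h7 : |Real.log l| ≤ Real.log (2 * B) + Real.log T := by
    rw [abs_le]; constructor <;> linarith
  have h8 : Real.log l * -w.re ≤ Real.log (2 * B) + C₀ := by
    calc Real.log l * -w.re ≤ |Real.log l * -w.re| := le_abs_self _
      _ = |Real.log l| * |w.re| := by rw [abs_mul, abs_neg]
      _ ≤ (Real.log (2 * B) + Real.log T) * ‖w‖ :=
          mul_le_mul h7 (Complex.abs_re_le_norm w) (abs_nonneg _) (by linarith)
      _ = Real.log (2 * B) * ‖w‖ + ‖w‖ * Real.log T := by ring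
      _ ≤ Real.log (2 * B) * 1 + C₀ := add_le_add
          (mul_le_mul_of_nonneg_left (hw.trans (by norm_num)) h6) hC
      _ = Real.log (2 * B) + C₀ := by ring
  calc Real.exp (Real.log l * -w.re) ≤ Real.exp (Real.log (2 * B) + C₀) := Real.exp_le_exp.2 h8
    _ = 2 * B * Real.exp C₀ := by rw [Real.exp_add, Real.exp_log (by linarith)]

/-- the geometric sum -/
theorem geo (n : ℕ) : ∑ j ∈ Finset.range (n + 1), ((2 : ℝ) ^ (n - j)) ^ (-(1 / 2) : ℝ) ≤ 4 := by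
  have h1 : ∀ j ∈ Finset.range (n + 1), ((2 : ℝ) ^ (n - j)) ^ (-(1 / 2) : ℝ) ≤
      (3 / 4 : ℝ) ^ (n - j) := by
    intro j _
    have h2 : (2 : ℝ) ^ (-(1 / 2) : ℝ) ≤ 3 / 4 := by
      rw [Real.rpow_neg (by norm_num), ← Real.sqrt_eq_rpow]
      have h3 : (4 / 3 : ℝ) ≤ √2 := Real.le_sqrt_of_sq_le (by norm_num)
      calc (√2)⁻¹ ≤ (4 / 3 : ℝ)⁻¹ := inv_anti₀ (by norm_num) h3
        _ = 3 / 4 := by norm_num
    calc ((2 : ℝ) ^ (n - j)) ^ (-(1 / 2) : ℝ) = ((2 : ℝ) ^ (-(1 / 2) : ℝ)) ^ (n - j) := by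
          rw [← Real.rpow_natCast, ← Real.rpow_natCast, ← Real.rpow_mul (by norm_num),
            ← Real.rpow_mul (by norm_num), mul_comm]
      _ ≤ _ := pow_le_pow_left₀ (by positivity) h2 _
  refine (Finset.sum_le_sum h1).trans ?_
  have h4 : ∑ j ∈ Finset.range (n + 1), (3 / 4 : ℝ) ^ (n - j) =
      ∑ j ∈ Finset.range (n + 1), (3 / 4 : ℝ) ^ j := by
    rw [← Finset.sum_range_reflect (fun j => (3 / 4 : ℝ) ^ j) (n + 1)]
    exact Finset.sum_congr rfl fun j _ => by congr 1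
  rw [h4, geom_sum_eq (by norm_num)]
  have h5 : (0 : ℝ) ≤ (3 / 4) ^ (n + 1) := by positivity
  rw [div_le_iff_of_neg (by norm_num)]
  linarith

/-! ### The remainder near zero -/

theorem cont_fn {g : ℝ → ℂ} (hg : Continuous g) (w : ℂ) (c : ℝ) :
    ContinuousOn (fun v : ℝ => (v : ℂ) ^ (-w) * g v * (ct (v / c) : ℂ)) (Set.Ioi 0) := by
  intro v hv
  have hv' : v ≠ 0 := ne_of_gt hv
  have h1 : ContinuousAt (fun v : ℝ => (v : ℂ) ^ (-w)) v :=
    Complex.continuousAt_ofReal_cpow_const v _ (Or.inr hv')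
  have h2 : ContinuousAt (fun v : ℝ => (ct (v / c) : ℂ)) v :=
    (Complex.continuous_ofReal.comp (ct_smooth.continuous.comp (by fun_prop))).continuousAt
  exact ((h1.mul hg.continuousAt).mul h2).continuousWithinAt

theorem rem_int {g : ℝ → ℂ} (hg : Continuous g) {w : ℂ} {c T M : ℝ} (hT : 1 ≤ T)
    (hw : ‖w‖ ≤ 1 / 16) (hM0 : 0 ≤ M) (hM : ∀ v, 0 ≤ v → ‖g v‖ ≤ M)
    (hc : ∀ v, 1 / T ≤ v → ct (v / c) = 0) :
    IntegrableOn (fun v : ℝ => (v : ℂ) ^ (-w) * g v * (ct (v / c) : ℂ)) (Set.Ioi 0) ∧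
    ‖∫ v in Set.Ioi (0 : ℝ), (v : ℂ) ^ (-w) * g v * (ct (v / c) : ℂ)‖ ≤
      M * (2 * (T ^ ‖w‖ / T)) := by
  have hT0 : 0 < T := by linarith
  have hT1 : (0 : ℝ) < 1 / T := by positivity
  have hT2 : 1 / T ≤ 1 := by rw [div_le_one hT0]; exact hT
  set F : ℝ → ℂ := fun v => (v : ℂ) ^ (-w) * g v * (ct (v / c) : ℂ) with hF
  have ha : (-1 : ℝ) < -‖w‖ := by linarith
  have hii : IntegrableOn (fun v : ℝ => M * v ^ (-‖w‖)) (Set.Ioc 0 (1 / T)) := by
    have h1 := intervalIntegral.intervalIntegrable_rpow' (a := 0) (b := 1 / T) ha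
    rw [intervalIntegrable_iff_integrableOn_Ioc_of_le hT1.le] at h1
    exact h1.const_mul M
  have hb : ∀ v ∈ Set.Ioc (0 : ℝ) (1 / T), ‖F v‖ ≤ M * v ^ (-‖w‖) := by
    intro v hv
    have h1 : ‖(v : ℂ) ^ (-w)‖ ≤ v ^ (-‖w‖) := by
      rw [Complex.norm_cpow_eq_rpow_re_of_pos hv.1, Complex.neg_re]
      exact Real.rpow_le_rpow_of_exponent_ge hv.1 (hv.2.trans hT2)
        (neg_le_neg (Complex.re_le_norm w))
    have h2 : ‖(ct (v / c) : ℂ)‖ ≤ 1 := by
      rw [Complex.norm_real]; exact ct_abs _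
    have h3 : 0 ≤ v ^ (-‖w‖) := Real.rpow_nonneg hv.1.le _
    calc ‖F v‖ = ‖(v : ℂ) ^ (-w)‖ * ‖g v‖ * ‖(ct (v / c) : ℂ)‖ := by rw [hF, norm_mul, norm_mul]
      _ ≤ v ^ (-‖w‖) * M * 1 := mul_le_mul (mul_le_mul h1 (hM v hv.1.le) (norm_nonneg _) h3) h2
          (norm_nonneg _) (mul_nonneg h3 hM0)
      _ = M * v ^ (-‖w‖) := by ring
  have hmeas : AEStronglyMeasurable F (volume.restrict (Set.Ioc 0 (1 / T))) :=
    ((cont_fn hg w c).mono Set.Ioc_subset_Ioi_self).aestronglyMeasurable measurableSet_Ioc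
  have hae : ∀ᵐ v ∂(volume.restrict (Set.Ioc 0 (1 / T))), ‖F v‖ ≤ M * v ^ (-‖w‖) := by
    rw [ae_restrict_iff' measurableSet_Ioc]
    exact Filter.Eventually.of_forall hb
  have hz : ∀ v, 1 / T ≤ v → F v = 0 := by
    intro v hv
    rw [hF]; show _ * (ct (v / c) : ℂ) = 0
    rw [hc v hv]; simp
  have hi1 : IntegrableOn F (Set.Ioc 0 (1 / T)) := Integrable.mono' hii hmeas hae
  refine ⟨?_, ?_⟩
  · rw [← Set.Ioc_union_Ioi_eq_Ioi hT1.le]
    refine hi1.union ((integrableOn_zero (ε' := ℂ)).congr_fun (fun u hu => ?_) measurableSet_Ioi)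
    exact (hz u (le_of_lt hu)).symm
  · have h1 : ∫ v in Set.Ioi (0 : ℝ), F v = ∫ v in Set.Ioc 0 (1 / T), F v := by
      refine (setIntegral_eq_of_subset_of_forall_sdiff_eq_zero measurableSet_Ioi
        Set.Ioc_subset_Ioi_self ?_)
      intro v hv
      refine hz v ?_
      by_contra h
      exact hv.2 ⟨hv.1, (not_le.1 h).le⟩
    rw [h1]
    refine (norm_integral_le_of_norm_le hii hae).trans ?_
    rw [integral_const_mul, ← intervalIntegral.integral_of_le hT1.le,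
      integral_rpow (Or.inl ha)]
    have hne : -‖w‖ + 1 ≠ 0 := by linarith
    rw [Real.zero_rpow hne, sub_zero]
    refine mul_le_mul_of_nonneg_left ?_ hM0
    have h2 : (1 / T) ^ (-‖w‖ + 1) = T ^ ‖w‖ / T := by
      rw [one_div, Real.inv_rpow hT0.le, ← Real.rpow_neg hT0.le, neg_add, neg_neg,
        ← sub_eq_add_neg, Real.rpow_sub hT0, Real.rpow_one]
    rw [h2, div_le_iff₀ (by linarith)]
    have h3 : 0 ≤ T ^ ‖w‖ / T := by positivity
    nlinarith

/-! ### The result -/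

theorem pf_IDZ (h : Pool.Agent.H33.HH.T_IDC) : T_IDZ := by
  intro K _ _ _ P b C₀ hS hb hC₀
  obtain ⟨C1, hC1, hI⟩ := h K P 1 3 hS (by norm_num) one_pos
  obtain ⟨A, hA0, hA⟩ := FF_bound
  set B : ℝ := max b 1 with hBdef
  have hB : 1 ≤ B := le_max_right _ _
  have hbB : b ≤ B := le_max_left _ _
  refine ⟨4 * (2 * B * Real.exp C₀) * (2 * (C1 * (8 * (A * (2 * B) ^ 3)))) +
    |rk K P| * (2 * Real.exp C₀), by positivity, ?_⟩
  intro g M T w hg h0 hM hT hw hC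
  have hT0 : 0 < T := by linarith
  have hM0 : 0 ≤ M := (norm_nonneg _).trans (hM 0 (by omega) 0 ⟨le_rfl, hb.le⟩)
  have hgM : ∀ v, 0 ≤ v → ‖g v‖ ≤ M := by
    intro v hv
    rcases le_or_gt v b with h1 | h1
    · simpa using hM 0 (by omega) v ⟨hv, h1⟩
    · rw [h0 v h1.le]; simpa using hM0
  obtain ⟨n, hn1, hn2⟩ := exists_nat_pow_near (x := 2 * B * T) (y := 2)
    (by nlinarith) (by norm_num)
  have hTj : ∀ j ≤ n, (2 : ℝ) ^ (n - j) ≤ T * la B j := by
    intro j hj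
    have h1 : T * la B j = 2 * B * T / 2 ^ j := by unfold la; ring
    rw [h1, le_div_iff₀ (by positivity), ← pow_add, Nat.sub_add_cancel hj]
    exact hn1
  have hTj1 : ∀ j ≤ n, 1 ≤ T * la B j := fun j hj =>
    (one_le_pow₀ (by norm_num : (1 : ℝ) ≤ 2)).trans (hTj j hj)
  have hct0 : ∀ v, v ≤ B → ct (v / la B 0) = 1 := by
    intro v hv
    refine ct_one ?_
    have h1 : la B 0 = 2 * B := by unfold la; simp
    rw [h1, div_le_iff₀ (by linarith)]
    linarith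
  have hctn : ∀ v, 1 / T ≤ v → ct (v / la B (n + 1)) = 0 := by
    intro v hv
    refine ct_zero ?_
    rw [le_div_iff₀ (la_pos hB _), one_mul]
    refine le_trans ?_ hv
    unfold la
    rw [div_le_div_iff₀ (by positivity) hT0]
    linarith
  have hpiece : ∀ j ≤ n, ‖sumZ (K := K) P (fun I => hj g w B j (nm I / (T * la B j))) -
      ((rk K P * (T * la B j) : ℝ) : ℂ) * ∫ u in Set.Ioi (0 : ℝ), hj g w B j u‖ ≤
      2 * (C1 * (8 * (A * ((2 * B) ^ 3 * M))) * (T * la B j) ^ (1 - ((3 : ℕ) : ℝ) / 2)) := by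
    intro j hjn
    refine cplx hI (hj_smooth hg w B j) (fun u hu => hj_zero g w B j hu) ?_ (hTj1 j hjn)
    intro k hk u hu
    refine iter_mul_le (FF_smooth.comp (contDiff_const.prodMk contDiff_id))
      (hg.comp (contDiff_const.mul contDiff_id)) hA0 (fun k hk => hA k hk w u hw hu) ?_ hk
    exact fun k hk => scale_bound hg hb h0 hM (by linarith) (la_pos hB j).le (la_le hB j) hu.1 hk
  have hE1 : sumZ (K := K) P (fun I => ((nm I / T : ℝ) : ℂ) ^ (-w) * g (nm I / T)) =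
      ∑ j ∈ Finset.range (n + 1), (la B j : ℂ) ^ (-w) *
        sumZ (K := K) P (fun I => hj g w B j (nm I / (T * la B j))) := by
    classical
    unfold sumZ
    have h1 : ∀ j ∈ Finset.range (n + 1), Summable (fun I : NI K => (la B j : ℂ) ^ (-w) *
        (if Cp P I.1 then hj g w B j (nm I.1 / (T * la B j)) else 0)) := by
      intro j _
      refine Summable.mul_left _ (sumZ_summable (X := T * la B j)
        (f := fun I => hj g w B j (nm I / (T * la B j))) fun I hI => hj_zero g w B j ?_)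
      rwa [le_div_iff₀ (mul_pos hT0 (la_pos hB j)), one_mul]
    have h2 : ∀ j ∈ Finset.range (n + 1), (la B j : ℂ) ^ (-w) *
        ∑' I : NI K, (if Cp P I.1 then hj g w B j (nm I.1 / (T * la B j)) else 0) =
        ∑' I : NI K, (la B j : ℂ) ^ (-w) *
          (if Cp P I.1 then hj g w B j (nm I.1 / (T * la B j)) else 0) :=
      fun j _ => tsum_mul_left.symm
    rw [Finset.sum_congr rfl h2, ← Summable.tsum_finsetSum h1]
    refine tsum_congr fun I => ?_
    by_cases hc : Cp P I.1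
    · simp only [if_pos hc]
      have hnm : 1 ≤ nm I.1 := by
        have h3 : Ideal.absNorm I.1 ≠ 0 := by
          rw [Ne, Ideal.absNorm_eq_zero_iff]; exact I.2
        have h3' : (1 : ℝ) ≤ (Ideal.absNorm I.1 : ℝ) := by
          exact_mod_cast Nat.one_le_iff_ne_zero.2 h3
        exact h3'
      have hv : 0 < nm I.1 / T := by positivity
      have h4 := decomp g w hB hv (n + 1)
      simp only [div_div] at h4
      rw [h4]
      rcases le_or_gt b (nm I.1 / T) with h5 | h5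
      · rw [h0 _ h5]; simp
      · have h6 := hct0 (nm I.1 / T) (h5.le.trans hbB)
        have h7 := hctn (nm I.1 / T) (by gcongr)
        simp only [div_div] at h6 h7
        rw [h6, h7]; simp
    · simp [if_neg hc]
  have hpi : ∀ j, IntegrableOn (fun v => hj g w B j (v / la B j)) (Set.Ioi 0) ∧
      ∫ v in Set.Ioi (0 : ℝ), hj g w B j (v / la B j) =
        (la B j : ℂ) * ∫ u in Set.Ioi (0 : ℝ), hj g w B j u := by
    intro j
    have hl := la_pos hB j
    have h1 := int_Ioi (hj_smooth hg w B j).continuous (fun u hu => hj_zero g w B j hu)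
    have h2 := integral_comp_mul_left_Ioi (hj g w B j) 0 (inv_pos.2 hl)
    have h3 := (integrableOn_Ioi_comp_mul_left_iff (hj g w B j) 0 (inv_pos.2 hl)).2
      (by rwa [mul_zero])
    simp only [inv_mul_eq_div, zero_div, inv_inv] at h2 h3
    exact ⟨h3, by rw [h2, Complex.real_smul]⟩
  obtain ⟨hri, hrb⟩ := rem_int (c := la B (n + 1)) hg.continuous hT hw hM0 hgM hctn
  set Rm : ℂ := ∫ v in Set.Ioi (0 : ℝ), (v : ℂ) ^ (-w) * g v * (ct (v / la B (n + 1)) : ℂ)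
    with hRm
  have hE2 : ∫ v in Set.Ioi (0 : ℝ), (v : ℂ) ^ (-w) * g v =
      ∑ j ∈ Finset.range (n + 1), (la B j : ℂ) ^ (-w) *
        ((la B j : ℂ) * ∫ u in Set.Ioi (0 : ℝ), hj g w B j u) + Rm := by
    have h1 : ∀ v ∈ Set.Ioi (0 : ℝ), (v : ℂ) ^ (-w) * g v =
        (∑ j ∈ Finset.range (n + 1), (la B j : ℂ) ^ (-w) * hj g w B j (v / la B j)) +
        (v : ℂ) ^ (-w) * g v * (ct (v / la B (n + 1)) : ℂ) := by
      intro v hv
      rw [decomp g w hB hv (n + 1)]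
      rcases le_or_gt b v with h5 | h5
      · rw [h0 _ h5]; simp
      · rw [hct0 v (h5.le.trans hbB)]
        push_cast; ring
    rw [setIntegral_congr_fun measurableSet_Ioi h1, integral_add
      (integrable_finsetSum _ fun j _ => (hpi j).1.const_mul _) hri, integral_finsetSum _
      (fun j _ => (hpi j).1.const_mul _)]
    congr 1
    refine Finset.sum_congr rfl fun j _ => ?_
    rw [integral_const_mul, (hpi j).2]
  have hmain : sumZ (K := K) P (fun I => ((nm I / T : ℝ) : ℂ) ^ (-w) * g (nm I / T)) -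
      ((rk K P * T : ℝ) : ℂ) * ∫ v in Set.Ioi (0 : ℝ), (v : ℂ) ^ (-w) * g v =
      ∑ j ∈ Finset.range (n + 1), (la B j : ℂ) ^ (-w) *
        (sumZ (K := K) P (fun I => hj g w B j (nm I / (T * la B j))) -
        ((rk K P * (T * la B j) : ℝ) : ℂ) * ∫ u in Set.Ioi (0 : ℝ), hj g w B j u) -
      ((rk K P * T : ℝ) : ℂ) * Rm := by
    rw [hE1, hE2, mul_add, Finset.mul_sum, ← sub_sub, ← Finset.sum_sub_distrib]
    congr 1
    refine Finset.sum_congr rfl fun j _ => ?_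
    push_cast; ring
  rw [hmain]
  refine (norm_sub_le _ _).trans ?_
  have hsum : ‖∑ j ∈ Finset.range (n + 1), (la B j : ℂ) ^ (-w) *
        (sumZ (K := K) P (fun I => hj g w B j (nm I / (T * la B j))) -
        ((rk K P * (T * la B j) : ℝ) : ℂ) * ∫ u in Set.Ioi (0 : ℝ), hj g w B j u)‖ ≤
      4 * (2 * B * Real.exp C₀) * (2 * (C1 * (8 * (A * (2 * B) ^ 3)))) * M := by
    have h1 : ∀ j ∈ Finset.range (n + 1), ‖(la B j : ℂ) ^ (-w) *
        (sumZ (K := K) P (fun I => hj g w B j (nm I / (T * la B j))) -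
        ((rk K P * (T * la B j) : ℝ) : ℂ) * ∫ u in Set.Ioi (0 : ℝ), hj g w B j u)‖ ≤
        (2 * B * Real.exp C₀) * (2 * (C1 * (8 * (A * ((2 * B) ^ 3 * M))))) *
          ((2 : ℝ) ^ (n - j)) ^ (-(1 / 2) : ℝ) := by
      intro j hj
      have hjn : j ≤ n := Nat.lt_succ_iff.1 (Finset.mem_range.1 hj)
      rw [norm_mul]
      have h2 := pow_bound hB hT hw hC (la_pos hB j) (hTj1 j hjn) (la_le hB j)
      have h3 : (T * la B j) ^ (1 - ((3 : ℕ) : ℝ) / 2) ≤
          ((2 : ℝ) ^ (n - j)) ^ (-(1 / 2) : ℝ) := by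
        have h4 : (1 - ((3 : ℕ) : ℝ) / 2) = (-(1 / 2) : ℝ) := by norm_num
        rw [h4]
        exact Real.rpow_le_rpow_of_nonpos (by positivity) (hTj j hjn) (by norm_num)
      calc _ ≤ (2 * B * Real.exp C₀) * (2 * (C1 * (8 * (A * ((2 * B) ^ 3 * M))) *
            (T * la B j) ^ (1 - ((3 : ℕ) : ℝ) / 2))) :=
            mul_le_mul h2 (hpiece j hjn) (norm_nonneg _) (by positivity)
        _ ≤ (2 * B * Real.exp C₀) * (2 * (C1 * (8 * (A * ((2 * B) ^ 3 * M))) *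
            ((2 : ℝ) ^ (n - j)) ^ (-(1 / 2) : ℝ))) := by gcongr
        _ = _ := by ring
    refine (norm_sum_le _ _).trans ((Finset.sum_le_sum h1).trans ?_)
    rw [← Finset.mul_sum]
    calc _ ≤ (2 * B * Real.exp C₀) * (2 * (C1 * (8 * (A * ((2 * B) ^ 3 * M))))) * 4 :=
          mul_le_mul_of_nonneg_left (geo n) (by positivity)
      _ = _ := by ring
  have hrem : ‖((rk K P * T : ℝ) : ℂ) * Rm‖ ≤ |rk K P| * (2 * Real.exp C₀) * M := by
    rw [norm_mul, Complex.norm_real, Real.norm_eq_abs, abs_mul, abs_of_pos hT0]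
    have h1 : T ^ ‖w‖ ≤ Real.exp C₀ := by
      rw [Real.rpow_def_of_pos hT0]
      exact Real.exp_le_exp.2 (by rw [mul_comm]; exact hC)
    calc |rk K P| * T * ‖Rm‖ ≤ |rk K P| * T * (M * (2 * (T ^ ‖w‖ / T))) := by gcongr
      _ = |rk K P| * (2 * T ^ ‖w‖) * M := by field_simp
      _ ≤ _ := by gcongr
  linarith

end

end Pool.Agent.H45.HC
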